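import Mathlib

/-!
# `a(p^k q)` is never an integer
-/

namespace Pool.Agent.Results.MP_dc9045_nt.PrimePowerTimesPrime

open Finset

/-- The expected absorption time `a(n)`, through its recursion
`a(n) = (n + ∑_{d ∣ n, d ≠ n} φ(d) a(d)) / (n - φ(n))` for `n > 1`, and `a(0) = a(1) = 0`. -/
noncomputable def a (n : ℕ) : ℚ :=
  if n ≤ 1 then 0
  else ((n : ℚ) + ∑ d ∈ n.properDivisors.attach, (Nat.totient d.1 : ℚ) * a d.1) /
    ((n : ℚ) - (Nat.totient n : ℚ))
termination_by n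
decreasing_by exact (Nat.mem_properDivisors.1 d.2).2

theorem a_one : a 1 = 0 := by
  rw [a]; simp

theorem a_rec {n : ℕ} (hn : 1 < n) :
    (n : ℚ) * a n = n + ∑ d ∈ n.divisors, (Nat.totient d : ℚ) * a d := by
  have h1 : a n = ((n : ℚ) + ∑ d ∈ n.properDivisors, (Nat.totient d : ℚ) * a d) /
      ((n : ℚ) - (Nat.totient n : ℚ)) := by
    conv_lhs => rw [a]
    rw [if_neg (by omega)]
    congr 2
    exact Finset.sum_attach n.properDivisors (fun d => (Nat.totient d : ℚ) * a d)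
  have h2 : ((n : ℚ) - (Nat.totient n : ℚ)) ≠ 0 := by
    have h3 : Nat.totient n < n := Nat.totient_lt n hn
    have h4 : (Nat.totient n : ℚ) < n := by exact_mod_cast h3
    linarith
  have h5 : a n * ((n : ℚ) - (Nat.totient n : ℚ)) =
      (n : ℚ) + ∑ d ∈ n.properDivisors, (Nat.totient d : ℚ) * a d := by
    rw [h1]; field_simp
  have h6 : ∑ d ∈ n.divisors, (Nat.totient d : ℚ) * a d =
      (∑ d ∈ n.properDivisors, (Nat.totient d : ℚ) * a d) + (Nat.totient n : ℚ) * a n := by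
    rw [← Nat.insert_self_properDivisors (by omega : n ≠ 0),
      Finset.sum_insert Nat.self_notMem_properDivisors, add_comm]
  rw [h6]
  linarith

theorem G_eq {p : ℕ} (hp : p.Prime) : ∀ k : ℕ,
    (∑ i ∈ range (k + 1), (Nat.totient (p ^ i) : ℚ) * a (p ^ i)) =
      k * ((p : ℚ) - 1) * (p : ℚ) ^ k := by
  have hp1 : (1 : ℚ) < p := by exact_mod_cast hp.one_lt
  intro k
  induction k with
  | zero => simp [a_one]
  | succ k ih =>
    have hn : 1 < p ^ (k + 1) := Nat.one_lt_pow (by omega) hp.one_lt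
    have hrec := a_rec hn
    rw [Nat.sum_divisors_prime_pow hp] at hrec
    rw [Finset.sum_range_succ, ih] at hrec ⊢
    have ht : (Nat.totient (p ^ (k + 1)) : ℚ) = (p : ℚ) ^ k * ((p : ℚ) - 1) := by
      rw [Nat.totient_prime_pow_succ hp]
      push_cast [Nat.cast_sub hp.one_lt.le]
      ring
    rw [ht] at hrec ⊢
    push_cast at hrec ⊢
    have hpk : (p : ℚ) ^ k ≠ 0 := pow_ne_zero _ (by linarith)
    have h1 : a (p ^ (k + 1)) = (p : ℚ) + k * ((p : ℚ) - 1) := by
      have h2 : (p : ℚ) ^ k * a (p ^ (k + 1)) = (p : ℚ) ^ k * ((p : ℚ) + k * ((p : ℚ) - 1)) := by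
        rw [pow_succ] at hrec
        linarith
      exact mul_left_cancel₀ hpk h2
    rw [h1, pow_succ]
    ring

theorem a_prime {q : ℕ} (hq : q.Prime) : a q = q := by
  have hrec := a_rec hq.one_lt
  rw [hq.sum_divisors] at hrec
  rw [a_one, Nat.totient_prime hq, Nat.cast_sub hq.one_lt.le] at hrec
  push_cast at hrec
  linarith

theorem sum_div_mul {m q : ℕ} (hm : m ≠ 0) (hq : q.Prime) (hqm : ¬ q ∣ m) (f : ℕ → ℚ) :
    ∑ d ∈ (m * q).divisors, f d = ∑ d ∈ m.divisors, f d + ∑ d ∈ m.divisors, f (d * q) := by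
  have h1 : (m * q).divisors = m.divisors ∪ m.divisors.image (fun d => d * q) := by
    ext d
    simp only [Nat.mem_divisors, Finset.mem_union, Finset.mem_image]
    constructor
    · rintro ⟨h, _⟩
      by_cases hqd : q ∣ d
      · obtain ⟨e, rfl⟩ := hqd
        right
        refine ⟨e, ⟨?_, hm⟩, mul_comm _ _⟩
        have : e * q ∣ m * q := by rwa [mul_comm e q]
        exact Nat.dvd_of_mul_dvd_mul_right hq.pos this
      · left
        refine ⟨?_, hm⟩
        have hc : Nat.Coprime d q := ((Nat.Prime.coprime_iff_not_dvd hq).2 hqd).symm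
        exact hc.dvd_of_dvd_mul_right h
    · rintro (⟨h, _⟩ | ⟨e, ⟨h, _⟩, rfl⟩)
      · exact ⟨h.mul_right q, mul_ne_zero hm hq.ne_zero⟩
      · exact ⟨Nat.mul_dvd_mul_right h q, mul_ne_zero hm hq.ne_zero⟩
  rw [h1, Finset.sum_union, Finset.sum_image]
  · intro x _ y _ hxy
    exact Nat.eq_of_mul_eq_mul_right hq.pos hxy
  · rw [Finset.disjoint_left]
    intro d hd hd'
    obtain ⟨e, _, rfl⟩ := Finset.mem_image.1 hd'
    exact hqm ((dvd_mul_left q e).trans (Nat.dvd_of_mem_divisors hd))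

theorem n_rec {p q : ℕ} (hp : p.Prime) (hq : q.Prime) (hpq : p ≠ q) (k : ℕ) :
    (p : ℚ) ^ k * q * a (p ^ k * q) = (p : ℚ) ^ k * q + k * ((p : ℚ) - 1) * (p : ℚ) ^ k +
      ((q : ℚ) - 1) * ∑ i ∈ range (k + 1), (Nat.totient (p ^ i) : ℚ) * a (p ^ i * q) := by
  have hqm : ∀ i, ¬ q ∣ p ^ i := by
    intro i h
    exact hpq.symm ((Nat.prime_dvd_prime_iff_eq hq hp).1 (hq.dvd_of_dvd_pow h))
  have hn : 1 < p ^ k * q := by
    have h1 : 1 ≤ p ^ k := Nat.one_le_pow _ _ hp.pos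
    have h2 := hq.one_lt
    nlinarith
  have hrec := a_rec hn
  rw [sum_div_mul (pow_ne_zero _ hp.ne_zero) hq (hqm k), Nat.sum_divisors_prime_pow hp,
    Nat.sum_divisors_prime_pow hp, G_eq hp k] at hrec
  have hs : ∑ i ∈ range (k + 1), (Nat.totient (p ^ i * q) : ℚ) * a (p ^ i * q) =
      ((q : ℚ) - 1) * ∑ i ∈ range (k + 1), (Nat.totient (p ^ i) : ℚ) * a (p ^ i * q) := by
    rw [Finset.mul_sum]
    apply Finset.sum_congr rfl
    intro i _
    have hc : Nat.Coprime (p ^ i) q := ((Nat.Prime.coprime_iff_not_dvd hq).2 (hqm i)).symm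
    rw [Nat.totient_mul hc, Nat.totient_prime hq]
    push_cast [Nat.cast_sub hq.one_lt.le]
    ring
  rw [hs] at hrec
  push_cast at hrec
  linarith

/-- `e k = k(p-1)+1+q - a(p^k q)`. -/
noncomputable def e (p q k : ℕ) : ℚ := k * ((p : ℚ) - 1) + 1 + q - a (p ^ k * q)

theorem e_zero {p q : ℕ} (hq : q.Prime) : e p q 0 = 1 := by
  unfold e
  rw [pow_zero, one_mul, a_prime hq]
  push_cast
  ring

theorem e_succ {p q : ℕ} (hp : p.Prime) (hq : q.Prime) (hpq : p ≠ q) (k : ℕ) :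
    ((p : ℚ) + q - 1) * e p q (k + 1) = q * (e p q k + (p - 1)) := by
  have h0 := n_rec hp hq hpq k
  have h1 := n_rec hp hq hpq (k + 1)
  rw [Finset.sum_range_succ] at h1
  have ht : (Nat.totient (p ^ (k + 1)) : ℚ) = (p : ℚ) ^ k * ((p : ℚ) - 1) := by
    rw [Nat.totient_prime_pow_succ hp]
    push_cast [Nat.cast_sub hp.one_lt.le]
    ring
  rw [ht] at h1
  have hpk : (p : ℚ) ^ k ≠ 0 := pow_ne_zero _ (by exact_mod_cast hp.ne_zero)
  set S := ∑ i ∈ range (k + 1), (Nat.totient (p ^ i) : ℚ) * a (p ^ i * q) with hS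
  set b := a (p ^ k * q) with hb
  set b' := a (p ^ (k + 1) * q) with hb'
  have h2 : (p : ℚ) ^ k * (((p : ℚ) + q - 1) * b') =
      (p : ℚ) ^ k * (q * b + (p - 1) * (q + 1 + (k + 1) * (p - 1))) := by
    rw [pow_succ] at h1
    push_cast at h1
    linear_combination h1 - h0
  have h3 := mul_left_cancel₀ hpk h2
  unfold e
  rw [← hb, ← hb']
  push_cast
  linear_combination -h3

/-- For distinct primes `p`, `q` and `k ≥ 1`, the number `a(p^k q)` is not an integer. -/
theorem result (p q k : ℕ) (hp : p.Prime) (hq : q.Prime) (hpq : p ≠ q) (hk : 1 ≤ k) :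
    ¬ ∃ z : ℤ, a (p ^ k * q) = z := by
  rintro ⟨z, hz⟩
  have hp2 := hp.two_le
  have hq2 := hq.two_le
  set M : ℕ := p + q - 1 with hM
  have hMq : (M : ℚ) = (p : ℚ) + q - 1 := by
    rw [hM, Nat.cast_sub (by omega)]; push_cast; ring
  have hM0 : (M : ℚ) ≠ 0 := by
    have : 0 < M := by omega
    exact_mod_cast this.ne'
  have hMqlt : q < M := by omega
  -- `e k` would be an integer
  obtain ⟨y, hy⟩ : ∃ y : ℤ, e p q k = y := by
    refine ⟨k * ((p : ℤ) - 1) + 1 + q - z, ?_⟩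
    unfold e
    rw [hz]; push_cast; ring
  -- integral numerators
  have hN : ∀ j : ℕ, ∃ N : ℤ, (M : ℚ) ^ (j + 1) * e p q (j + 1) = N ∧
      (M : ℤ) ∣ N - (q : ℤ) ^ (j + 1) * p := by
    intro j
    induction j with
    | zero =>
      refine ⟨(q : ℤ) * p, ?_, ⟨0, by ring⟩⟩
      have := e_succ hp hq hpq 0
      rw [e_zero hq] at this
      rw [hMq, zero_add, pow_one, this]
      push_cast; ring
    | succ j ih =>
      obtain ⟨N, hN1, c, hc⟩ := ih
      refine ⟨q * (N + (p - 1) * M ^ (j + 1)), ?_, ?_⟩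
      · have := e_succ hp hq hpq (j + 1)
        rw [← hMq] at this
        have h2 : (M : ℚ) ^ (j + 1 + 1) * e p q (j + 1 + 1) =
            M ^ (j + 1) * ((M : ℚ) * e p q (j + 1 + 1)) := by ring
        rw [h2, this]
        push_cast
        rw [← hN1]
        ring
      · refine ⟨q * c + q * (p - 1) * M ^ j, ?_⟩
        have h3 : N = M * c + (q : ℤ) ^ (j + 1) * p := by linarith
        rw [h3]
        ring
  obtain ⟨j, rfl⟩ : ∃ j, k = j + 1 := ⟨k - 1, by omega⟩
  have hdvd : M ∣ q ^ (j + 1) * p := by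
    obtain ⟨N, hN1, hN2⟩ := hN j
    rw [hy] at hN1
    have h1 : N = (M : ℤ) ^ (j + 1) * y := by
      have : ((N : ℤ) : ℚ) = (((M : ℤ) ^ (j + 1) * y : ℤ) : ℚ) := by
        rw [← hN1]; push_cast; ring
      exact_mod_cast this
    have h2 : (M : ℤ) ∣ N := by
      rw [h1, pow_succ]
      exact ⟨(M : ℤ) ^ j * y, by ring⟩
    have h3 : (M : ℤ) ∣ (q : ℤ) ^ (j + 1) * p := by
      have := dvd_sub h2 hN2
      rwa [sub_sub_cancel] at this
    exact_mod_cast h3
  -- `M` is a power of `q`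
  have hpM : ¬ p ∣ M := by
    intro hpM
    have h1 : p ∣ q - 1 := by
      have h2 : M = p + (q - 1) := by omega
      rw [h2] at hpM
      exact (Nat.dvd_add_right (dvd_refl p)).1 hpM
    have h2 : p ≤ q - 1 := Nat.le_of_dvd (by omega) h1
    have h3 : ¬ q ∣ M := by
      intro hqM
      have h4 : M = q + (p - 1) := by omega
      rw [h4] at hqM
      have h5 := (Nat.dvd_add_right (dvd_refl q)).1 hqM
      have := Nat.le_of_dvd (by omega) h5
      omega
    have h4 : Nat.Coprime M (q ^ (j + 1)) :=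
      (((Nat.Prime.coprime_iff_not_dvd hq).2 h3).symm).pow_right _
    have h5 : M ∣ p := h4.dvd_of_dvd_mul_left hdvd
    have := Nat.le_of_dvd hp.pos h5
    omega
  have hMc : Nat.Coprime M p := ((Nat.Prime.coprime_iff_not_dvd hp).2 hpM).symm
  have hMdq : M ∣ q ^ (j + 1) := hMc.dvd_of_dvd_mul_right hdvd
  obtain ⟨t, _, ht⟩ := (Nat.dvd_prime_pow hq).1 hMdq
  have ht2 : 2 ≤ t := by
    by_contra hlt
    have : t = 0 ∨ t = 1 := by omega
    rcases this with rfl | rfl
    · rw [pow_zero] at ht; omega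
    · rw [pow_one] at ht; omega
  obtain ⟨u, rfl⟩ : ∃ u, t = u + 2 := ⟨t - 2, by omega⟩
  set R : ℕ := q ^ (u + 1) with hR
  have hMR : (M : ℚ) = q * R := by
    rw [ht, hR]; push_cast; ring
  have hq0 : (q : ℚ) ≠ 0 := by exact_mod_cast hq.ne_zero
  have hqR : (q : ℤ) ∣ R := by
    rw [hR]; push_cast; exact dvd_pow_self _ (by omega)
  have hstep : ∀ i : ℕ, (R : ℚ) * e p q (i + 1) = e p q i + (p - 1) := by
    intro i
    have := e_succ hp hq hpq i
    rw [← hMq, hMR] at this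
    have h2 : (q : ℚ) * (R * e p q (i + 1)) = q * (e p q i + (p - 1)) := by linarith
    exact mul_left_cancel₀ hq0 h2
  have hE : ∀ i : ℕ, ∃ E : ℤ, (R : ℚ) ^ (i + 1) * e p q (i + 1) = E ∧ ¬ (q : ℤ) ∣ E := by
    intro i
    induction i with
    | zero =>
      refine ⟨p, ?_, ?_⟩
      · rw [zero_add, pow_one, hstep 0, e_zero hq]; push_cast; ring
      · intro h
        have h' : q ∣ p := by exact_mod_cast h
        exact hpq.symm ((Nat.prime_dvd_prime_iff_eq hq hp).1 h')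
    | succ i ih =>
      obtain ⟨E, hE1, hE2⟩ := ih
      refine ⟨E + (p - 1) * R ^ (i + 1), ?_, ?_⟩
      · have h2 : (R : ℚ) ^ (i + 1 + 1) * e p q (i + 1 + 1) =
            R ^ (i + 1) * ((R : ℚ) * e p q (i + 1 + 1)) := by ring
        rw [h2, hstep (i + 1)]
        push_cast
        rw [← hE1]
        ring
      · intro h
        apply hE2
        have h3 : (q : ℤ) ∣ (p - 1) * R ^ (i + 1) :=
          Dvd.dvd.mul_left (hqR.trans (dvd_pow_self _ (by omega))) _
        exact (dvd_add_left h3).1 h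
  obtain ⟨E, hE1, hE2⟩ := hE j
  rw [hy] at hE1
  apply hE2
  have h1 : E = (R : ℤ) ^ (j + 1) * y := by
    have : ((E : ℤ) : ℚ) = (((R : ℤ) ^ (j + 1) * y : ℤ) : ℚ) := by
      rw [← hE1]; push_cast; ring
    exact_mod_cast this
  rw [h1]
  exact Dvd.dvd.mul_right (hqR.trans (dvd_pow_self _ (by omega))) _

end Pool.Agent.Results.MP_dc9045_nt.PrimePowerTimesPrime
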